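import Pool.Agent.V11299.JD.Main

set_option autoImplicit false

/-!
The determinant `{3,2}_n` vanishes for composite `n ≡ 3 (mod 4)`.
-/

open Finset Matrix

namespace Pool.Agent.V11299.JD

lemma exists_q (n : ℕ) (hn : n % 4 = 3) :
    ∃ q : ℕ, q.Prime ∧ q % 4 = 3 ∧ Odd (padicValNat q n) := by
  by_contra hcon
  push Not at hcon
  have h1 : ∃ x y : ℕ, n = x ^ 2 + y ^ 2 := by
    rw [Nat.eq_sq_add_sq_iff]
    intro q hq hq4
    have := hcon q (Nat.prime_of_mem_primeFactors hq) hq4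
    rwa [Nat.not_odd_iff_even] at this
  obtain ⟨x, y, hxy⟩ := h1
  have hx : x % 4 = 0 ∨ x % 4 = 1 ∨ x % 4 = 2 ∨ x % 4 = 3 := by omega
  have hy : y % 4 = 0 ∨ y % 4 = 1 ∨ y % 4 = 2 ∨ y % 4 = 3 := by omega
  rw [hxy, Nat.add_mod, Nat.pow_mod, Nat.pow_mod y] at hn
  rcases hx with hx | hx | hx | hx <;> rcases hy with hy | hy | hy | hy <;>
    rw [hx, hy] at hn <;> norm_num at hn

lemma sum_range_zmod (m : ℕ) [NeZero m] (g : ZMod m → ℤ) :
    ∑ l ∈ range m, g (l : ZMod m) = ∑ i, g i := by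
  refine Finset.sum_nbij' (fun l => (l : ZMod m)) (fun i => i.val) ?_ ?_ ?_ ?_ ?_
  · simp
  · intro i _
    simp [ZMod.val_lt]
  · intro l hl
    rw [ZMod.val_natCast, Nat.mod_eq_of_lt (by simpa using hl)]
  · intro i _
    simp
  · simp

lemma char_sum (q : ℕ) [Fact q.Prime] (hq : q % 4 = 3) (j : ZMod q) :
    ∑ t : ZMod q, quadraticChar (ZMod q) (t * ((j + t) * (j + 2 * t))) = 0 := by
  have h2 : q ≠ 2 := by omega
  have hm1 : quadraticChar (ZMod q) (-1) = -1 := by
    have h := quadraticChar_neg_one (F := ZMod q) (by rw [ZMod.ringChar_zmod_n]; exact h2)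
    rw [h, ZMod.card, ZMod.χ₄_nat_three_mod_four (by omega)]
  have h1 : ∑ t : ZMod q, quadraticChar (ZMod q)
      ((-j - t) * ((j + (-j - t)) * (j + 2 * (-j - t)))) =
      ∑ t : ZMod q, quadraticChar (ZMod q) (t * ((j + t) * (j + 2 * t))) :=
    Equiv.sum_comp (Equiv.subLeft (-j : ZMod q))
      (fun t => quadraticChar (ZMod q) (t * ((j + t) * (j + 2 * t))))
  have h3 : ∀ t : ZMod q, quadraticChar (ZMod q)
      ((-j - t) * ((j + (-j - t)) * (j + 2 * (-j - t)))) =
      - quadraticChar (ZMod q) (t * ((j + t) * (j + 2 * t))) := by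
    intro t
    have h4 : (-j - t) * ((j + (-j - t)) * (j + 2 * (-j - t))) =
        -1 * (t * ((j + t) * (j + 2 * t))) := by ring
    rw [h4, map_mul, hm1]
    ring
  simp only [h3, Finset.sum_neg_distrib] at h1
  linarith

/-- the case of a prime factor with an exponent at least three -/
lemma case_cube (c d : ℤ) (n q : ℕ) (hq : q.Prime) (hq3 : 3 ≤ q) (hn : q ^ 3 ∣ n) (hn0 : 0 < n) :
    D c d n = 0 := by
  obtain ⟨r, hr⟩ := hn
  have hr0 : 0 < r := by
    rcases Nat.eq_zero_or_pos r with h | h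
    · rw [h, mul_zero] at hr; omega
    · exact h
  set n1 := q * r with hn1
  have hnn : n = q ^ 2 * n1 := by rw [hr, hn1]; ring
  have hn1pos : 0 < n1 := by positivity
  have hn13 : 3 ≤ n1 := by nlinarith
  have hbig : 9 * n1 ≤ n := by
    rw [hnn]
    have : 9 ≤ q ^ 2 := by nlinarith
    exact Nat.mul_le_mul_right _ this
  have hq0 : q ≠ 0 := by omega
  have : NeZero q := ⟨hq0⟩
  have : NeZero n1 := ⟨hn1pos.ne'⟩
  have hJ : ∀ a : ℤ, jacobiSym a n = jacobiSym a n1 := by
    intro a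
    rw [hnn, jacobiSym.mul_right' a (pow_ne_zero 2 hq0) hn1pos.ne', jacobiSym.pow_right]
    by_cases h : (a.gcd q) = 1
    · rw [jacobiSym.sq_one h, one_mul]
    · have h2 : jacobiSym a n1 = 0 := by
        rw [jacobiSym.eq_zero_iff_not_coprime]
        intro h3
        apply h
        rw [hn1] at h3
        push_cast at h3
        exact Int.isCoprime_iff_gcd_eq_one.1 ((Int.isCoprime_iff_gcd_eq_one.2 h3).of_mul_right_left)
      rw [h2, mul_zero]
  have hmod : ∀ a b : ℤ, (n1 : ℤ) ∣ a - b → jacobiSym a n = jacobiSym b n := by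
    intro a b h
    rw [hJ, hJ]
    apply jacobiSym.mod_left'
    exact (Int.emod_emod_of_dvd a dvd_rfl).symm.trans (by
      rw [Int.emod_emod_of_dvd a dvd_rfl]
      exact Int.ModEq.symm ((Int.modEq_iff_dvd).2 (by simpa using h)))
  have h0 : 0 < n - 3 := by omega
  have h1 : n1 < n - 3 := by omega
  unfold D
  apply Matrix.det_zero_of_column_eq (i := (⟨0, h0⟩ : Fin (n - 3))) (j := ⟨n1, h1⟩)
  · intro h
    have := congrArg Fin.val h
    simp at this
    omega
  · intro k
    simp only [Matrix.of_apply]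
    apply hmod
    refine ⟨-(c * ((k : ℤ) + 2)) - d * (n1 + 4), ?_⟩
    push_cast
    ring

/-- the case of a prime factor with exponent one -/
lemma case_one (n q N : ℕ) [Fact q.Prime] (hq : q % 4 = 3) (hn : n = q * N) (hqN : ¬ q ∣ N)
    (hN : 3 ≤ N) : D 3 2 n = 0 := by
  have hqp : q.Prime := Fact.out
  have hq3 : 3 ≤ q := by omega
  have hn9 : 9 ≤ n := by rw [hn]; nlinarith
  have hqN3 : 3 * N ≤ n := by rw [hn]; exact Nat.mul_le_mul_right _ hq3
  have : NeZero N := ⟨by omega⟩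
  have hNq : (N : ZMod q) ≠ 0 := by
    rw [Ne, ZMod.natCast_eq_zero_iff]
    exact hqN
  let x : ℕ → ℤ := fun κ => if N ∣ κ then quadraticChar (ZMod q) (κ : ZMod q) else 0
  unfold D
  rw [← Matrix.exists_mulVec_eq_zero_iff]
  refine ⟨fun k => x (k + 2), ?_, ?_⟩
  · intro h
    have h1 := congrFun h ⟨N - 2, by omega⟩
    simp only [x, Pi.zero_apply] at h1
    rw [show N - 2 + 2 = N by omega, if_pos dvd_rfl, quadraticChar_eq_zero_iff] at h1
    exact hNq h1
  · ext j
    simp only [Matrix.mulVec, dotProduct, Matrix.of_apply, Pi.zero_apply]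
    -- the summand as a function on the naturals
    let g : ℕ → ℤ := fun κ => jacobiSym (((j : ℤ) + 2) ^ 2 + 3 * ((j : ℤ) + 2) * (κ : ℤ) +
      2 * (κ : ℤ) ^ 2) n * x κ
    have hg0 : g 0 = 0 := by simp [g, x]
    have hg1 : g 1 = 0 := by
      simp only [g, x]
      rw [if_neg, mul_zero]
      intro h
      have := Nat.le_of_dvd one_pos h
      omega
    have hgn : g (n - 1) = 0 := by
      simp only [g, x]
      rw [if_neg, mul_zero]
      intro h
      have h1 : N ∣ n := by rw [hn]; exact dvd_mul_left _ _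
      have h2 : N ∣ n - (n - 1) := Nat.dvd_sub h1 h
      have h3 := Nat.le_of_dvd (by omega) h2
      omega
    have hS : ∑ k : Fin (n - 3), jacobiSym (((j : ℤ) + 2) ^ 2 + 3 * ((j : ℤ) + 2) *
        ((k : ℤ) + 2) + 2 * ((k : ℤ) + 2) ^ 2) n * x (k + 2) = ∑ κ ∈ range n, g κ := by
      have e1 : n = (n - 3) + 1 + 1 + 1 := by omega
      conv_rhs => rw [e1]
      rw [Finset.sum_range_succ, Finset.sum_range_succ', Finset.sum_range_succ']
      have e2 : n - 3 + 1 + 1 = n - 1 := by omega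
      rw [e2, hgn, hg0]
      simp only [zero_add]
      rw [hg1, add_zero, add_zero, add_zero, ← Fin.sum_univ_eq_sum_range (fun k => g (k + 1 + 1))]
      refine Finset.sum_congr rfl fun k _ => ?_
      simp only [g]
      push_cast
      congr 2
    rw [hS]
    have hS2 : ∑ κ ∈ range n, g κ = ∑ r ∈ range q, g (N * r) := by
      rw [← Finset.sum_filter_of_ne (p := fun κ => N ∣ κ)]
      · refine (Finset.sum_nbij (fun r => N * r) ?_ ?_ ?_ ?_).symm
        · intro r hr
          rw [mem_range] at hr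
          rw [mem_filter, mem_range, hn, mul_comm q N]
          exact ⟨Nat.mul_lt_mul_of_pos_left hr (by omega), dvd_mul_right _ _⟩
        · intro r _ s _ hrs
          exact Nat.eq_of_mul_eq_mul_left (by omega) hrs
        · intro κ hκ
          rw [coe_filter, Set.mem_ofPred_eq, mem_range] at hκ
          obtain ⟨h1, r, hr⟩ := hκ
          refine ⟨r, ?_, hr.symm⟩
          rw [coe_range, Set.mem_Iio]
          rw [hr, hn, mul_comm q N] at h1
          exact Nat.lt_of_mul_lt_mul_left h1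
        · intro r _
          rfl
      · intro κ _ hκ
        by_contra h
        apply hκ
        simp only [g, x]
        rw [if_neg h, mul_zero]
    rw [hS2]
    have hJn : ∀ a : ℤ, jacobiSym a n = jacobiSym a q * jacobiSym a N := by
      intro a
      have h1 := jacobiSym.mul_right' a (b₁ := q) (b₂ := N) (by omega) (by omega)
      rwa [← hn] at h1
    have hg : ∀ r : ℕ, g (N * r) = jacobiSym (((j : ℤ) + 2) ^ 2) N *
        (fun t : ZMod q => quadraticChar (ZMod q) (t * ((((j : ℕ) + 2 : ZMod q) + t) *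
          (((j : ℕ) + 2 : ZMod q) + 2 * t)))) ((N : ZMod q) * (r : ZMod q)) := by
      intro r
      simp only [g, x]
      rw [if_pos (dvd_mul_right _ _)]
      have e1 : jacobiSym (((j : ℤ) + 2) ^ 2 + 3 * ((j : ℤ) + 2) * ((N * r : ℕ) : ℤ) +
          2 * ((N * r : ℕ) : ℤ) ^ 2) n = jacobiSym (((j : ℤ) + 2) ^ 2 + 3 * ((j : ℤ) + 2) *
          ((N * r : ℕ) : ℤ) + 2 * ((N * r : ℕ) : ℤ) ^ 2) q * jacobiSym (((j : ℤ) + 2) ^ 2) N := by
        rw [hJn]
        congr 1
        apply jacobiSym.mod_left'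
        apply Int.ModEq.symm
        rw [Int.modEq_iff_dvd]
        refine ⟨3 * ((j : ℤ) + 2) * r + 2 * N * r ^ 2, ?_⟩
        push_cast
        ring
      rw [e1, ← jacobiSym.legendreSym.to_jacobiSym, legendreSym]
      have e2 : ((((j : ℤ) + 2) ^ 2 + 3 * ((j : ℤ) + 2) * ((N * r : ℕ) : ℤ) +
          2 * ((N * r : ℕ) : ℤ) ^ 2 : ℤ) : ZMod q) =
          (((j : ℕ) + 2 : ZMod q) + (N : ZMod q) * (r : ZMod q)) *
          (((j : ℕ) + 2 : ZMod q) + 2 * ((N : ZMod q) * (r : ZMod q))) := by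
        push_cast
        ring
      rw [e2, map_mul (quadraticChar (ZMod q)) ((N : ZMod q) * (r : ZMod q)), Nat.cast_mul]
      ring
    simp only [hg]
    rw [← Finset.mul_sum]
    rw [sum_range_zmod q (fun t => (fun t : ZMod q => quadraticChar (ZMod q)
      (t * ((((j : ℕ) + 2 : ZMod q) + t) * (((j : ℕ) + 2 : ZMod q) + 2 * t))))
        ((N : ZMod q) * t))]
    have e3 : ∑ t : ZMod q, (fun t : ZMod q => quadraticChar (ZMod q)
        (t * ((((j : ℕ) + 2 : ZMod q) + t) * (((j : ℕ) + 2 : ZMod q) + 2 * t))))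
        ((N : ZMod q) * t) = ∑ t : ZMod q, quadraticChar (ZMod q)
        (t * ((((j : ℕ) + 2 : ZMod q) + t) * (((j : ℕ) + 2 : ZMod q) + 2 * t))) :=
      Equiv.sum_comp (Equiv.mulLeft₀ (N : ZMod q) hNq)
      (fun t : ZMod q => quadraticChar (ZMod q)
      (t * ((((j : ℕ) + 2 : ZMod q) + t) * (((j : ℕ) + 2 : ZMod q) + 2 * t))))
    rw [e3, char_sum q hq, mul_zero]

theorem comp_case (n : ℕ) (hn : n % 4 = 3) (hp : ¬ n.Prime) : D 3 2 n = 0 := by
  obtain ⟨q, hq, hq4, hodd⟩ := exists_q n hn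
  have hn0 : n ≠ 0 := by omega
  have : Fact q.Prime := ⟨hq⟩
  have hq3 : 3 ≤ q := by omega
  have hqn : q ∣ n := by
    by_contra h
    rw [padicValNat.eq_zero_of_not_dvd h] at hodd
    exact absurd hodd (by decide)
  obtain ⟨N, hN⟩ := hqn
  by_cases hqN : q ∣ N
  · apply case_cube 3 2 n q hq hq3 _ (by omega)
    obtain ⟨M, hM⟩ := hqN
    have h2 : 2 ≤ padicValNat q n := by
      rw [← padicValNat_dvd_iff_le hn0]
      exact ⟨M, by rw [hN, hM]; ring⟩
    have h3 : 3 ≤ padicValNat q n := by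
      obtain ⟨k, hk⟩ := hodd
      omega
    rwa [← padicValNat_dvd_iff_le hn0] at h3
  · apply case_one n q N hq4 hN hqN
    have h1 : N ≠ 1 := fun h => hp (by rw [hN, h, mul_one]; exact hq)
    have h2 : N ≠ 0 := fun h => hn0 (by rw [hN, h, mul_zero])
    have h4 : N ≠ 2 := by
      intro h
      rw [hN, h] at hn
      omega
    omega

/-- the theorem -/
theorem main (n : ℕ) (hn : n % 8 = 3) :
    ∃ x : ℤ, ((D 3 2 n : ℤ) : ℚ) = (n.totient : ℚ) / 2 * (x : ℚ) ^ 2 := by
  by_cases hp : n.Prime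
  · have : Fact n.Prime := ⟨hp⟩
    obtain ⟨x, hx⟩ := prime_case n hn
    refine ⟨x, ?_⟩
    rw [hx, Nat.totient_prime hp]
    have h2 : ((n - 1 : ℕ) : ℚ) / 2 = (((n - 1) / 2 : ℕ) : ℚ) := by
      have h3 : n - 1 = 2 * ((n - 1) / 2) := by omega
      conv_lhs => rw [h3]
      push_cast
      ring
    rw [h2, Int.cast_mul, Int.cast_natCast, Int.cast_pow]
  · refine ⟨0, ?_⟩
    rw [comp_case n (by omega) hp]
    simp

end Pool.Agent.V11299.JD
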