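import Pool.Agent.V11299.JD.Kap
import Pool.Agent.Helper848.SqDet

set_option autoImplicit false

/-!
Circulant matrices of odd order with vanishing row sums.
-/

open Finset Matrix

namespace Pool.Agent.V11299.JD

lemma isSquare_skew {ι : Type*} [Fintype ι] [DecidableEq ι] (M : Matrix ι ι ℤ)
    (h : ∀ i j, M i j = - M j i) : IsSquare M.det :=
  Pool.Agent.Helper848.SqDet.isSquare_int M (fun _ => 0) (fun i j => by rw [h i j]; ring)

variable {m : ℕ} [NeZero m]

lemma circ_row (v : ZMod m → ℤ) (hv : ∑ i, v i = 0) (i : ZMod m) :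
    ∑ j, circulant v i j = 0 := by
  simp only [circulant_apply]
  rw [← hv]
  exact (Equiv.subLeft i).sum_comp v

lemma circ_col (v : ZMod m → ℤ) (hv : ∑ i, v i = 0) (j : ZMod m) :
    ∑ i, circulant v i j = 0 := by
  simp only [circulant_apply]
  rw [← hv]
  exact (Equiv.subRight j).sum_comp v

lemma isSquare_kap (v : ZMod m → ℤ) (hv : ∀ i, v (-i) = - v i) (i₀ : ZMod m) :
    IsSquare (kap i₀ (circulant v)) := by
  apply isSquare_skew
  intro i j
  simp only [submatrix_apply, circulant_apply]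
  rw [← hv]
  congr 1
  ring

lemma odd_sum (v : ZMod m → ℤ) (hv : ∀ i, v (-i) = - v i) : ∑ i, v i = 0 := by
  have h1 : ∑ i, v (-i) = ∑ i, v i := Equiv.sum_comp (Equiv.neg (ZMod m)) v
  simp only [hv, Finset.sum_neg_distrib] at h1
  linarith

/-- discrete integration on a cycle -/
lemma exists_prim (g : ZMod m → ℤ) (hg : ∑ i, g i = 0) :
    ∃ B : ZMod m → ℤ, B 0 = 0 ∧ ∀ k, B (k + 1) - B k = g k := by
  have hm : 0 < m := Nat.pos_of_ne_zero (NeZero.ne m)
  refine ⟨fun k => ∑ l ∈ range k.val, g (l : ZMod m), by simp, fun k => ?_⟩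
  have htot : ∑ l ∈ range m, g (l : ZMod m) = 0 := by
    rw [← hg]
    refine Finset.sum_nbij' (fun l => (l : ZMod m)) (fun i => i.val) ?_ ?_ ?_ ?_ ?_
    · simp
    · intro i _
      simp [ZMod.val_lt]
    · intro l hl
      rw [ZMod.val_natCast, Nat.mod_eq_of_lt (by simpa using hl)]
    · intro i _
      simp
    · simp
  have hk : k.val < m := ZMod.val_lt k
  have hval : (k + 1).val = (k.val + 1) % m := by
    rw [ZMod.val_add]
    rcases Nat.eq_or_lt_of_le (Nat.one_le_iff_ne_zero.2 hm.ne') with h1 | h1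
    · subst h1
      simp [Nat.mod_one]
    · have : Fact (1 < m) := ⟨h1⟩
      rw [ZMod.val_one]
  show ∑ l ∈ range (k + 1).val, g (l : ZMod m) - ∑ l ∈ range k.val, g (l : ZMod m) = g k
  rw [hval]
  rcases Nat.lt_or_ge (k.val + 1) m with h1 | h1
  · rw [Nat.mod_eq_of_lt h1, sum_range_succ]
    simp
  · have h2 : k.val + 1 = m := by omega
    rw [h2, Nat.mod_self, sum_range_zero]
    have h3 : range m = range (k.val + 1) := by rw [h2]
    rw [h3, sum_range_succ] at htot
    simp at htot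
    linarith

lemma exists_two (hm : m % 2 = 1) (i : ZMod m) : ∃ k : ZMod m, i = 2 * k := by
  have h : (2 : ZMod m) * (((m + 1) / 2 : ℕ) : ZMod m) = 1 := by
    have h1 : 2 * ((m + 1) / 2) = m + 1 := by omega
    have h2 : ((2 * ((m + 1) / 2) : ℕ) : ZMod m) = ((m + 1 : ℕ) : ZMod m) := by rw [h1]
    push_cast at h2
    simpa using h2
  exact ⟨(((m + 1) / 2 : ℕ) : ZMod m) * i, by rw [← mul_assoc, h, one_mul]⟩

lemma two_bij (hm : m % 2 = 1) : Function.Bijective (fun k : ZMod m => 2 * k + 1) := by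
  rw [Fintype.bijective_iff_surjective_and_card]
  refine ⟨fun i => ?_, rfl⟩
  obtain ⟨k, hk⟩ := exists_two hm (i - 1)
  exact ⟨k, by simp only; rw [← hk]; ring⟩

lemma exists_b (hm : m % 2 = 1) (s : ZMod m → ℤ) (hs : ∀ i, s (-i) = s i)
    (h0 : ∑ i, s i = 0) :
    ∃ b : ZMod m → ℤ, (∀ i, b (-i) = - b i) ∧ ∀ i, b (i - 1) - b (i + 1) = s i := by
  obtain ⟨B, hB0, hB⟩ := exists_prim (fun k : ZMod m => s (2 * k + 1))
    (by rw [← h0]; exact (two_bij hm).sum_comp s)
  set c : ZMod m := (((m + 1) / 2 : ℕ) : ZMod m) with hc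
  have h2c : (2 : ZMod m) * c = 1 := by
    have h1 : 2 * ((m + 1) / 2) = m + 1 := by omega
    have h2 : ((2 * ((m + 1) / 2) : ℕ) : ZMod m) = ((m + 1 : ℕ) : ZMod m) := by rw [h1]
    push_cast at h2
    rw [hc]
    push_cast
    simpa using h2
  have hb : ∀ i, - B (c * (i - 1)) - - B (c * (i + 1)) = s i := by
    intro i
    have h1 := hB (c * (i - 1))
    have h2 : c * (i - 1) + 1 = c * (i + 1) := by linear_combination -h2c
    have h3 : 2 * (c * (i - 1)) + 1 = i := by linear_combination (i - 1) * h2c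
    simp only [h2, h3] at h1
    linarith
  refine ⟨fun i => - B (c * i), ?_, hb⟩
  -- oddness
  have hconst : ∀ k : ℕ, B (c * (2 * (k : ZMod m))) + B (c * (-(2 * (k : ZMod m)))) = 0 := by
    intro k
    induction k with
    | zero => simp [hB0]
    | succ k ih =>
      have h1 := hb (2 * (k : ZMod m) + 1)
      have h2 := hb (-(2 * (k : ZMod m) + 1))
      rw [hs] at h2
      have e1 : 2 * (k : ZMod m) + 1 - 1 = 2 * k := by ring
      have e2 : 2 * (k : ZMod m) + 1 + 1 = 2 * ((k + 1 : ℕ) : ZMod m) := by push_cast; ring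
      have e3 : -(2 * (k : ZMod m) + 1) - 1 = -(2 * ((k + 1 : ℕ) : ZMod m)) := by
        push_cast; ring
      have e4 : -(2 * (k : ZMod m) + 1) + 1 = -(2 * k) := by ring
      rw [e1, e2] at h1
      rw [e3, e4] at h2
      linarith
  intro i
  obtain ⟨k, hk⟩ := exists_two hm i
  have h1 := hconst k.val
  rw [ZMod.natCast_zmod_val, ← hk] at h1
  simp only
  linarith

/-- symmetric circulants of odd order `m` with vanishing row sums have `κ = m x²` -/
theorem kap_symm (hm : m % 2 = 1) (s : ZMod m → ℤ) (hs : ∀ i, s (-i) = s i)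
    (h0 : ∑ i, s i = 0) (i₀ : ZMod m) :
    ∃ x : ℤ, kap i₀ (circulant s) = m * x ^ 2 := by
  obtain ⟨b, hb, hbs⟩ := exists_b hm s hs h0
  let a : ZMod m → ℤ := fun i => (if i = 1 then 1 else 0) - (if i = -1 then 1 else 0)
  have ha : ∀ i, a (-i) = - a i := by
    intro i
    simp only [a]
    have e1 : (-i = 1) ↔ (i = -1) := by
      constructor
      · intro h; rw [← h, neg_neg]
      · intro h; rw [h, neg_neg]
    have e2 : (-i = -1) ↔ (i = 1) := neg_inj
    simp only [e1, e2]
    ring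
  have hprod : circulant s = circulant a * circulant b := by
    ext i j
    rw [Matrix.mul_apply]
    simp only [circulant_apply, a, sub_mul, ite_mul, one_mul, zero_mul]
    rw [Finset.sum_sub_distrib]
    have e1 : ∀ x : ZMod m, (i - x = 1) ↔ (x = i - 1) := fun x =>
      ⟨fun h => by rw [← h]; ring, fun h => by rw [h]; ring⟩
    have e2 : ∀ x : ZMod m, (i - x = -1) ↔ (x = i + 1) := fun x =>
      ⟨fun h => by linear_combination -h, fun h => by rw [h]; ring⟩
    simp only [e1, e2, Finset.sum_ite_eq', Finset.mem_univ, if_true]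
    rw [← hbs (i - j)]
    congr 1 <;> congr 1 <;> ring
  rw [hprod, kap_mul i₀ _ _ (circ_row a (odd_sum a ha)) (circ_col a (odd_sum a ha))
    (circ_row b (odd_sum b hb)) (circ_col b (odd_sum b hb)), ZMod.card]
  obtain ⟨x, hx⟩ := isSquare_kap a ha i₀
  obtain ⟨y, hy⟩ := isSquare_kap b hb i₀
  exact ⟨x * y, by rw [hx, hy]; ring⟩

lemma sign_add (hm : m % 2 = 1) (e : ZMod m) : Equiv.Perm.sign (Equiv.addRight e) = 1 := by
  have h1 : ∀ k : ℕ, (Equiv.addRight e : Equiv.Perm (ZMod m)) ^ k =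
      Equiv.addRight ((k : ZMod m) * e) := by
    intro k
    induction k with
    | zero => ext i; simp
    | succ k ih =>
      rw [pow_succ, ih]
      ext i
      simp
      ring_nf
  have h2 : (Equiv.addRight e : Equiv.Perm (ZMod m)) ^ m = 1 := by
    rw [h1]
    ext i
    simp
  have h3 := congrArg Equiv.Perm.sign h2
  rw [map_pow, map_one] at h3
  rcases Int.units_eq_one_or (Equiv.Perm.sign (Equiv.addRight e : Equiv.Perm (ZMod m))) with h | h
  · exact h
  · rw [h, Odd.neg_one_pow (Nat.odd_iff.2 hm)] at h3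
    exact absurd h3 (by decide)

lemma kap_shift (hm : m % 2 = 1) (v : ZMod m → ℤ) (h0 : ∑ i, v i = 0) (e i₀ : ZMod m) :
    kap i₀ (circulant fun i => v (i + e)) = kap i₀ (circulant v) := by
  have h1 : circulant (fun i => v (i + e)) = (circulant v).submatrix (Equiv.addRight e) id := by
    ext i j
    simp only [circulant_apply, submatrix_apply, id, Equiv.coe_addRight]
    congr 1
    ring
  rw [h1, kap_perm i₀ _ (circ_row v h0) (circ_col v h0) _ (sign_add hm e)]

/-- the symmetric part -/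
theorem kap_even (hm : m % 2 = 1) (v : ZMod m → ℤ) (h0 : ∑ i, v i = 0) (e₀ i₀ : ZMod m)
    (hv : ∀ i, v (e₀ - i) = v i) : ∃ x : ℤ, kap i₀ (circulant v) = m * x ^ 2 := by
  obtain ⟨e, he⟩ := exists_two hm e₀
  rw [← kap_shift hm v h0 e i₀]
  refine kap_symm hm _ ?_ ?_ i₀
  · intro i
    rw [← hv (i + e)]
    congr 1
    rw [he]
    ring
  · rw [← h0]
    exact Equiv.sum_comp (Equiv.addRight e) v

/-- the skew part -/
theorem kap_odd (hm : m % 2 = 1) (v : ZMod m → ℤ) (h0 : ∑ i, v i = 0) (e₀ i₀ : ZMod m)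
    (hv : ∀ i, v (e₀ - i) = - v i) : ∃ x : ℤ, kap i₀ (circulant v) = x ^ 2 := by
  obtain ⟨e, he⟩ := exists_two hm e₀
  rw [← kap_shift hm v h0 e i₀]
  obtain ⟨x, hx⟩ := isSquare_kap (fun i => v (i + e)) (by
    intro i
    rw [← hv (i + e)]
    congr 1
    rw [he]
    ring) i₀
  exact ⟨x, by rw [hx]; ring⟩

end Pool.Agent.V11299.JD
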