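import Mathlib

set_option autoImplicit false

/-!
Matrices with vanishing row and column sums: the principal minor `κ`.
-/

open Finset Matrix

namespace Pool.Agent.V11299.JD

/-- the all-ones matrix -/
def J (ι : Type*) : Matrix ι ι ℤ := Matrix.of fun _ _ => 1

section block

variable {α : Type*} [Fintype α] [DecidableEq α]

lemma det_block (N : Matrix (Unit ⊕ α) (Unit ⊕ α) ℤ) (hr : ∀ i, ∑ j, N i j = 0)
    (hc : ∀ j, ∑ i, N i j = 0) (c : ℤ) :
    (N + c • J (Unit ⊕ α)).det =
      c * ((Fintype.card α : ℤ) + 1) ^ 2 * (N.submatrix Sum.inr Sum.inr).det := by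
  set m : ℤ := (Fintype.card α : ℤ) + 1 with hm
  let L : Matrix (Unit ⊕ α) (Unit ⊕ α) ℤ := fromBlocks 1 (Matrix.of fun _ _ => 1) 0 1
  let R : Matrix (Unit ⊕ α) (Unit ⊕ α) ℤ := fromBlocks 1 0 (Matrix.of fun _ _ => 1) 1
  let D : Matrix (Unit ⊕ α) (Unit ⊕ α) ℤ := fromBlocks (Matrix.of fun _ _ => m) 0 0 1
  let Y : Matrix (Unit ⊕ α) (Unit ⊕ α) ℤ :=
    fromBlocks (Matrix.of fun _ _ => c * m) (Matrix.of fun _ _ => c) 0 (N.submatrix Sum.inr Sum.inr)
  have hN : N + c • J (Unit ⊕ α) = fromBlocks (Matrix.of fun i j => N (.inl i) (.inl j) + c)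
      (Matrix.of fun i j => N (.inl i) (.inr j) + c) (Matrix.of fun i j => N (.inr i) (.inl j) + c)
      (Matrix.of fun i j => N (.inr i) (.inr j) + c) := by
    ext i j
    rcases i with i | i <;> rcases j with j | j <;> simp [J]
  have hc1 : ∀ j, ∑ i : α, N (Sum.inr i) (Sum.inr j) = - N (Sum.inl ()) (Sum.inr j) := by
    intro j
    have := hc (Sum.inr j)
    rw [Fintype.sum_sum_type] at this
    simp only [univ_unique, PUnit.default_eq_unit, sum_singleton] at this
    linarith
  have hr1 : ∀ i, ∑ j : α, N (Sum.inr i) (Sum.inr j) = - N (Sum.inr i) (Sum.inl ()) := by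
    intro i
    have := hr (Sum.inr i)
    rw [Fintype.sum_sum_type] at this
    simp only [univ_unique, PUnit.default_eq_unit, sum_singleton] at this
    linarith
  have hc0 : ∑ i : α, N (Sum.inr i) (Sum.inl ()) = - N (Sum.inl ()) (Sum.inl ()) := by
    have := hc (Sum.inl ())
    rw [Fintype.sum_sum_type] at this
    simp only [univ_unique, PUnit.default_eq_unit, sum_singleton] at this
    linarith
  have hr0 : ∑ i : α, N (Sum.inl ()) (Sum.inr i) = - N (Sum.inl ()) (Sum.inl ()) := by
    have := hr (Sum.inl ())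
    rw [Fintype.sum_sum_type] at this
    simp only [univ_unique, PUnit.default_eq_unit, sum_singleton] at this
    linarith
  have key : L * (N + c • J (Unit ⊕ α)) * R = D * (R * Y) := by
    rw [hN]
    simp only [L, R, D, Y, fromBlocks_multiply]
    simp only [Matrix.one_mul, Matrix.zero_mul, Matrix.mul_zero, Matrix.mul_one, add_zero,
      zero_add]
    congr 1
    · ext i j
      simp only [Matrix.add_apply, Matrix.mul_apply, Matrix.of_apply, one_mul, mul_one,
        Finset.sum_add_distrib, hc1, hc0, hr0, Finset.univ_unique, PUnit.default_eq_unit,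
        Finset.sum_singleton, Finset.sum_const, Finset.card_univ, nsmul_eq_mul, Finset.card_singleton,
        Nat.cast_one, Fintype.card_unit, Fintype.card_punit,
        Finset.sum_neg_distrib]
      rw [hm]
      ring
    · ext i j
      simp only [Matrix.add_apply, Matrix.mul_apply, Matrix.of_apply, one_mul, mul_one,
        Finset.sum_add_distrib, hc1, Finset.univ_unique, PUnit.default_eq_unit,
        Finset.sum_singleton, Finset.sum_const, Finset.card_univ, nsmul_eq_mul, Finset.card_singleton,
        Nat.cast_one, Fintype.card_unit, Fintype.card_punit]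
      rw [hm]
      ring
    · ext i j
      simp only [Matrix.add_apply, Matrix.mul_apply, Matrix.of_apply, one_mul, mul_one,
        Finset.sum_add_distrib, hr1, Finset.univ_unique, PUnit.default_eq_unit,
        Finset.sum_singleton, Finset.sum_const, Finset.card_univ, nsmul_eq_mul, Finset.card_singleton,
        Nat.cast_one, Fintype.card_unit, Fintype.card_punit]
      rw [hm]
      ring
    · ext i j
      simp only [Matrix.add_apply, Matrix.mul_apply, Matrix.of_apply, one_mul, submatrix_apply,
        Finset.univ_unique, Finset.sum_singleton]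
      ring
  have hL : L.det = 1 := by
    simp only [L]
    rw [det_fromBlocks_zero₂₁, det_one, det_one, one_mul]
  have hR : R.det = 1 := by
    simp only [R]
    rw [det_fromBlocks_zero₁₂, det_one, det_one, one_mul]
  have hD : D.det = m := by
    simp only [D]
    rw [det_fromBlocks_zero₂₁, det_one, mul_one, det_unique]
    rfl
  have hY : Y.det = c * m * (N.submatrix Sum.inr Sum.inr).det := by
    simp only [Y]
    rw [det_fromBlocks_zero₂₁, det_unique]
    rfl
  have h := congrArg Matrix.det key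
  rw [det_mul, det_mul, det_mul, det_mul, hL, hR, hD, hY] at h
  linear_combination h

end block

section general

variable {ι : Type*} [Fintype ι] [DecidableEq ι] (i₀ : ι)

/-- the minor without the row and the column of `i₀` -/
def kap (N : Matrix ι ι ℤ) : ℤ :=
  (N.submatrix (fun i : {i // i ≠ i₀} => i.1) (fun i : {i // i ≠ i₀} => i.1)).det

/-- the index set as a sum -/
def spl : Unit ⊕ {i // i ≠ i₀} ≃ ι where
  toFun x := Sum.elim (fun _ => i₀) (fun i => i.1) x
  invFun i := if h : i = i₀ then Sum.inl () else Sum.inr ⟨i, h⟩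
  left_inv x := by
    rcases x with x | x
    · simp
    · simp [x.2]
  right_inv i := by
    by_cases h : i = i₀
    · simp [h]
    · simp [h]

lemma det_add_J (N : Matrix ι ι ℤ) (hr : ∀ i, ∑ j, N i j = 0)
    (hc : ∀ j, ∑ i, N i j = 0) (c : ℤ) :
    (N + c • J ι).det = c * (Fintype.card ι : ℤ) ^ 2 * kap i₀ N := by
  have h := det_block (N.submatrix (spl i₀) (spl i₀))
    (by
      intro i
      simp only [submatrix_apply]
      rw [(spl i₀).sum_comp (fun j => N (spl i₀ i) j)]
      exact hr _)
    (by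
      intro i
      simp only [submatrix_apply]
      rw [(spl i₀).sum_comp (fun j => N j (spl i₀ i))]
      exact hc _) c
  have h1 : N.submatrix (spl i₀) (spl i₀) + c • J (Unit ⊕ {i // i ≠ i₀}) =
      (N + c • J ι).submatrix (spl i₀) (spl i₀) := by
    ext i j
    simp [J]
  rw [h1, det_submatrix_equiv_self] at h
  rw [h]
  have h2 : (Fintype.card {i // i ≠ i₀} : ℤ) + 1 = Fintype.card ι := by
    have := Fintype.card_congr (spl i₀)
    rw [Fintype.card_sum, Fintype.card_unit] at this
    rw [← this]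
    push_cast
    ring
  rw [h2]
  rfl

lemma kap_mul (N₁ N₂ : Matrix ι ι ℤ) (hr₁ : ∀ i, ∑ j, N₁ i j = 0)
    (hc₁ : ∀ j, ∑ i, N₁ i j = 0) (hr₂ : ∀ i, ∑ j, N₂ i j = 0)
    (hc₂ : ∀ j, ∑ i, N₂ i j = 0) :
    kap i₀ (N₁ * N₂) = Fintype.card ι * kap i₀ N₁ * kap i₀ N₂ := by
  have hcard : (Fintype.card ι : ℤ) ≠ 0 := by
    have : 0 < Fintype.card ι := Fintype.card_pos_iff.2 ⟨i₀⟩
    positivity
  have h1 : (N₁ + (1 : ℤ) • J ι) * (N₂ + (1 : ℤ) • J ι) =
      N₁ * N₂ + (Fintype.card ι : ℤ) • J ι := by
    ext i j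
    simp only [Matrix.mul_apply, Matrix.add_apply, J, Matrix.smul_apply, Matrix.of_apply,
      smul_eq_mul, mul_one]
    simp only [add_mul, mul_add, mul_one, one_mul, Finset.sum_add_distrib, hr₁, hc₂]
    simp
  have h2 := congrArg Matrix.det h1
  rw [det_mul, det_add_J i₀ N₁ hr₁ hc₁, det_add_J i₀ N₂ hr₂ hc₂, det_add_J i₀] at h2
  · have h3 : (Fintype.card ι : ℤ) ^ 3 * kap i₀ (N₁ * N₂) =
        (Fintype.card ι : ℤ) ^ 3 * (Fintype.card ι * kap i₀ N₁ * kap i₀ N₂) := by
      linear_combination -h2
    exact mul_left_cancel₀ (pow_ne_zero 3 hcard) h3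
  · intro i
    simp only [Matrix.mul_apply]
    rw [Finset.sum_comm]
    simp only [← Finset.mul_sum, hr₂, mul_zero, Finset.sum_const_zero]
  · intro j
    simp only [Matrix.mul_apply]
    rw [Finset.sum_comm]
    simp only [← Finset.sum_mul, hc₁, zero_mul, Finset.sum_const_zero]

/-- row permutations -/
lemma kap_perm (N : Matrix ι ι ℤ) (hr : ∀ i, ∑ j, N i j = 0)
    (hc : ∀ j, ∑ i, N i j = 0) (σ : Equiv.Perm ι) (hσ : Equiv.Perm.sign σ = 1) :
    kap i₀ (N.submatrix σ id) = kap i₀ N := by
  have hcard : (Fintype.card ι : ℤ) ≠ 0 := by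
    have : 0 < Fintype.card ι := Fintype.card_pos_iff.2 ⟨i₀⟩
    positivity
  have h1 : N.submatrix σ id + (1 : ℤ) • J ι = (N + (1 : ℤ) • J ι).submatrix σ id := by
    ext i j
    simp [J]
  have h2 := congrArg Matrix.det h1
  rw [det_permute, hσ, det_add_J i₀ N hr hc, det_add_J i₀] at h2
  · have h3 : (Fintype.card ι : ℤ) ^ 2 * kap i₀ (N.submatrix σ id) =
        (Fintype.card ι : ℤ) ^ 2 * kap i₀ N := by
      simpa using h2
    exact mul_left_cancel₀ (pow_ne_zero 2 hcard) h3
  · intro i
    exact hr _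
  · intro j
    simp only [submatrix_apply, id]
    rw [Equiv.sum_comp σ (fun i => N i j)]
    exact hc j

end general

end Pool.Agent.V11299.JD
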