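import Pool.Agent.V11299.JD.Prime

set_option autoImplicit false

/-!
The determinant `{3,2}_p` for a prime `p ≡ 3 (mod 8)`, continued.
-/

open Finset Matrix

namespace Pool.Agent.V11299.JD

lemma det_sym_blocks {α : Type*} [Fintype α] [DecidableEq α] (A B : Matrix α α ℤ) :
    (fromBlocks A B B A).det = (A + B).det * (A - B).det := by
  have h1 : (fromBlocks 1 1 0 1 : Matrix (α ⊕ α) (α ⊕ α) ℤ) * fromBlocks A B B A *
      (fromBlocks 1 (-1) 0 1 : Matrix (α ⊕ α) (α ⊕ α) ℤ) =
      fromBlocks (A + B) 0 B (A - B) := by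
    simp only [fromBlocks_multiply]
    congr 1
    · simp
    · simp
      abel
    · simp
    · simp
      abel
  have h2 := congrArg Matrix.det h1
  rw [det_mul, det_mul, det_fromBlocks_zero₂₁, det_fromBlocks_zero₂₁,
    det_fromBlocks_zero₁₂, det_one] at h2
  linarith

section prime

variable (p : ℕ) [Fact p.Prime]

/-- the entries -/
noncomputable def K (a b : ZMod p) : ℤ := ch p (a ^ 2 + 3 * a * b + 2 * b ^ 2)

lemma K_eq (a : ZMod p) {b : ZMod p} (hb : b ≠ 0) : K p a b = f p (a * b⁻¹) := by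
  have h1 : a ^ 2 + 3 * a * b + 2 * b ^ 2 = (a * b⁻¹ + 1) * (a * b⁻¹ + 2) * (b * b) := by
    field_simp
    ring
  rw [K, h1, map_mul, map_mul _ b, ch_sq p hb, mul_one, f]

/-- the index set -/
abbrev X : Type := {t : ZMod p // t ≠ 0 ∧ t ≠ 1 ∧ t ≠ -1}

lemma D_eq (hp : p % 8 = 3) : D 3 2 p = (Matrix.of fun a b : X p => K p a.1 b.1).det := by
  have hp1 := (Fact.out : p.Prime).one_lt
  have hlt : ∀ j : Fin (p - 3), j.1 + 2 < p - 1 := fun j => by have := j.2; omega
  have hval : ∀ j : Fin (p - 3), (((j.1 + 2 : ℕ) : ZMod p)).val = j.1 + 2 := fun j => by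
    rw [ZMod.val_natCast, Nat.mod_eq_of_lt (by have := hlt j; omega)]
  let Θ : Fin (p - 3) → X p := fun j => ⟨((j.1 + 2 : ℕ) : ZMod p), by
    have h1 := hval j
    have h2 := hlt j
    refine ⟨?_, ?_, ?_⟩
    · intro h
      rw [h, ZMod.val_zero] at h1
      omega
    · intro h
      rw [h, ZMod.val_one] at h1
      omega
    · intro h
      rw [h, ZMod.neg_val, ZMod.val_one, if_neg one_ne_zero] at h1
      omega⟩
  have hΘ : Function.Bijective Θ := by
    constructor
    · intro i j hij
      have h1 : (((i.1 + 2 : ℕ) : ZMod p)).val = (((j.1 + 2 : ℕ) : ZMod p)).val :=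
        congrArg (fun x : X p => x.1.val) hij
      rw [hval, hval] at h1
      exact Fin.ext (by omega)
    · rintro ⟨t, h0, h1, h2⟩
      have e0 : t.val ≠ 0 := fun h => h0 ((ZMod.val_eq_zero t).1 h)
      have e1 : t.val ≠ 1 := fun h => h1 (ZMod.val_injective p (by rw [h, ZMod.val_one]))
      have e2 : t.val ≠ p - 1 := fun h => h2 (ZMod.val_injective p (by
        rw [h, ZMod.neg_val, ZMod.val_one, if_neg one_ne_zero]))
      have e3 := ZMod.val_lt t
      refine ⟨⟨t.val - 2, by omega⟩, ?_⟩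
      apply Subtype.ext
      show ((t.val - 2 + 2 : ℕ) : ZMod p) = t
      rw [show t.val - 2 + 2 = t.val by omega, ZMod.natCast_zmod_val]
  rw [← det_submatrix_equiv_self (Equiv.ofBijective Θ hΘ), D]
  congr 1
  ext j k
  simp only [Matrix.of_apply, submatrix_apply, Equiv.ofBijective_apply, K, Θ]
  rw [← jacobiSym.legendreSym.to_jacobiSym, legendreSym]
  congr 1
  push_cast
  ring

theorem prime_case (hp : p % 8 = 3) :
    ∃ x : ℤ, D 3 2 p = (((p - 1) / 2 : ℕ) : ℤ) * x ^ 2 := by
  obtain ⟨m, hm⟩ : ∃ m, m = (p - 1) / 2 := ⟨_, rfl⟩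
  rw [← hm]
  have hm0 : m ≠ 0 := by omega
  have hmo : m % 2 = 1 := by omega
  have : NeZero m := ⟨hm0⟩
  obtain ⟨E, hE0, hEadd, hEne, hEch, hEinj⟩ := exists_E p m (by omega)
  have hEneg : ∀ i j, E i ≠ - E j := by
    intro i j h
    have h1 := congrArg (ch p) h
    rw [neg_eq_neg_one_mul, map_mul, hEch, hEch, ch_neg_one p hp] at h1
    norm_num at h1
  -- the bijection
  let Φ : Unit ⊕ (ZMod m ⊕ ZMod m) → ZMod p :=
    Sum.elim (fun _ => 0) (Sum.elim E (fun i => - E i))
  have hΦi : Function.Injective Φ := by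
    rintro (a | a | a) (b | b | b) hab
    · rfl
    · exact absurd hab.symm (hEne b)
    · exact absurd hab.symm (neg_ne_zero.2 (hEne b))
    · exact absurd hab (hEne a)
    · exact congrArg _ (congrArg _ (hEinj hab))
    · exact absurd hab (hEneg a b)
    · exact absurd hab (neg_ne_zero.2 (hEne a))
    · exact absurd hab.symm (hEneg b a)
    · exact congrArg _ (congrArg _ (hEinj (neg_injective hab)))
  have hΦ : Function.Bijective Φ := by
    rw [Fintype.bijective_iff_injective_and_card]
    refine ⟨hΦi, ?_⟩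
    rw [Fintype.card_sum, Fintype.card_sum, Fintype.card_unit, ZMod.card, ZMod.card]
    omega
  have hcases : ∀ t : ZMod p, t = 0 ∨ (∃ i, t = E i) ∨ (∃ i, t = - E i) := by
    intro t
    obtain ⟨a, ha⟩ := hΦ.2 t
    rcases a with a | a | a
    · exact Or.inl ha.symm
    · exact Or.inr (Or.inl ⟨a, ha.symm⟩)
    · exact Or.inr (Or.inr ⟨a, ha.symm⟩)
  have hsum : ∀ h : ZMod p → ℤ, ∑ t, h t = h 0 + (∑ i, h (E i) + ∑ i, h (- E i)) := by
    intro h
    rw [← (Equiv.ofBijective Φ hΦ).sum_comp h, Fintype.sum_sum_type, Fintype.sum_sum_type]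
    simp [Φ]
  set F : ZMod m → ℤ := fun i => f p (E i) with hF
  set F' : ZMod m → ℤ := fun i => f p (- E i) with hF'
  have hf0 : f p 0 = -1 := by
    rw [f]
    simp only [zero_add, one_mul]
    exact ch_two p hp
  have hs1 : ∑ i, (F i + F' i) = 0 := by
    have h1 := hsum (f p)
    rw [sum_f p hp, hf0] at h1
    rw [Finset.sum_add_distrib]
    linarith
  have hs2 : ∑ i, (F i - F' i) = 0 := by
    have h1 := hsum (fun t => ch p t * f p t)
    rw [sum_cf p hp] at h1
    have h2 : ∀ i, ch p (- E i) = -1 := by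
      intro i
      rw [neg_eq_neg_one_mul, map_mul, hEch, ch_neg_one p hp, mul_one]
    simp only [MulChar.map_zero, zero_mul, hEch, h2, one_mul, neg_mul, Finset.sum_neg_distrib,
      zero_add] at h1
    rw [Finset.sum_sub_distrib]
    linarith
  -- `-2 = E e₀`
  obtain ⟨e₀, he₀⟩ : ∃ e₀, (-2 : ZMod p) = E e₀ := by
    rcases hcases (-2) with h | h | ⟨i, h⟩
    · exfalso
      have h1 := ch_two p hp
      rw [show (2 : ZMod p) = 0 by linear_combination -h] at h1
      simp at h1
    · exact h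
    · exfalso
      have h1 : (2 : ZMod p) = E i := by linear_combination -h
      have h2 := ch_two p hp
      rw [h1, hEch] at h2
      norm_num at h2
  have hEneg' : ∀ i, E (-i) = (E i)⁻¹ := by
    intro i
    apply eq_inv_of_mul_eq_one_left
    rw [← hEadd, neg_add_cancel, hE0]
  have hEsub : ∀ i j, E (i - j) = E i * (E j)⁻¹ := by
    intro i j
    rw [sub_eq_add_neg, hEadd, hEneg']
  have hFs : ∀ i, F' (e₀ - i) = - F i := by
    intro i
    simp only [hF, hF']
    rw [hEsub, ← he₀, ← f_inv p hp (hEne i)]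
    congr 1
    ring
  have hFs' : ∀ i, F (e₀ - i) = - F' i := by
    intro i
    have h := hFs (e₀ - i)
    rw [sub_sub_cancel] at h
    linarith
  obtain ⟨x, hx⟩ := kap_odd hmo (fun i => F i + F' i) hs1 e₀ 0
    (fun i => by simp only [hFs, hFs']; ring)
  obtain ⟨y, hy⟩ := kap_even hmo (fun i => F i - F' i) hs2 e₀ 0
    (fun i => by simp only [hFs, hFs']; ring)
  -- the determinant
  let I := {i : ZMod m // i ≠ 0}
  let Ψ : I ⊕ I → X p := Sum.elim
    (fun i => ⟨E i.1, hEne _, fun h => i.2 (hEinj (by rw [h, hE0])),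
      fun h => hEneg i.1 0 (by rw [h, hE0])⟩)
    (fun i => ⟨- E i.1, neg_ne_zero.2 (hEne _), fun h => hEneg 0 i.1 (by rw [h, hE0]),
      fun h => i.2 (hEinj (by rw [hE0]; exact neg_injective h))⟩)
  have hΨ : Function.Bijective Ψ := by
    constructor
    · rintro (a | a) (b | b) hab
      · exact congrArg _ (Subtype.ext (hEinj (congrArg (fun x : X p => x.1) hab)))
      · exact absurd (congrArg (fun x : X p => x.1) hab) (hEneg a.1 b.1)
      · exact absurd (congrArg (fun x : X p => x.1) hab).symm (hEneg b.1 a.1)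
      · exact congrArg _ (Subtype.ext (hEinj (neg_injective
          (congrArg (fun x : X p => x.1) hab))))
    · rintro ⟨t, h0, h1, h2⟩
      rcases hcases t with h | ⟨i, h⟩ | ⟨i, h⟩
      · exact absurd h h0
      · refine ⟨Sum.inl ⟨i, fun hi => h1 ?_⟩, Subtype.ext h.symm⟩
        rw [h, hi, hE0]
      · refine ⟨Sum.inr ⟨i, fun hi => h2 ?_⟩, Subtype.ext h.symm⟩
        rw [h, hi, hE0]
  have hdet : (Matrix.of fun a b : X p => K p a.1 b.1).det =
      kap 0 (circulant fun i => F i + F' i) * kap 0 (circulant fun i => F i - F' i) := by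
    rw [← det_submatrix_equiv_self (Equiv.ofBijective Ψ hΨ)]
    have h1 : (Matrix.of fun a b : X p => K p a.1 b.1).submatrix (Equiv.ofBijective Ψ hΨ)
        (Equiv.ofBijective Ψ hΨ) =
        fromBlocks (Matrix.of fun i j : I => F (i.1 - j.1)) (Matrix.of fun i j : I => F' (i.1 - j.1))
          (Matrix.of fun i j : I => F' (i.1 - j.1)) (Matrix.of fun i j : I => F (i.1 - j.1)) := by
      ext a b
      rcases a with a | a <;> rcases b with b | b
      · simp only [submatrix_apply, Matrix.of_apply, Equiv.ofBijective_apply, Ψ, Sum.elim_inl,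
          fromBlocks_apply₁₁, hF]
        rw [K_eq p _ (hEne _), hEsub]
      · simp only [submatrix_apply, Matrix.of_apply, Equiv.ofBijective_apply, Ψ, Sum.elim_inl,
          Sum.elim_inr, fromBlocks_apply₁₂, hF']
        rw [K_eq p _ (neg_ne_zero.2 (hEne _)), hEsub]
        congr 1
        rw [inv_neg]
        ring
      · simp only [submatrix_apply, Matrix.of_apply, Equiv.ofBijective_apply, Ψ, Sum.elim_inl,
          Sum.elim_inr, fromBlocks_apply₂₁, hF']
        rw [K_eq p _ (hEne _), hEsub]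
        congr 1
        ring
      · simp only [submatrix_apply, Matrix.of_apply, Equiv.ofBijective_apply, Ψ, 
          Sum.elim_inr, fromBlocks_apply₂₂, hF]
        rw [K_eq p _ (neg_ne_zero.2 (hEne _)), hEsub]
        congr 1
        rw [inv_neg]
        ring
    rw [h1, det_sym_blocks]
    rfl
  refine ⟨x * y, ?_⟩
  rw [D_eq p hp, hdet, hx, hy]
  ring

end prime

end Pool.Agent.V11299.JD
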