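import Pool.Agent.V11299.JD.Circ

set_option autoImplicit false

/-!
The determinant `{3,2}_p` for a prime `p ≡ 3 (mod 8)`.
-/

open Finset Matrix

namespace Pool.Agent.V11299.JD

/-- the determinant `{c,d}_n` -/
def D (c d : ℤ) (n : ℕ) : ℤ :=
  (Matrix.of fun j k : Fin (n - 3) =>
    jacobiSym (((j : ℤ) + 2) ^ 2 + c * ((j : ℤ) + 2) * ((k : ℤ) + 2) + d * ((k : ℤ) + 2) ^ 2) n).det

section prime

variable (p : ℕ) [Fact p.Prime]

/-- the quadratic character -/
noncomputable abbrev ch : MulChar (ZMod p) ℤ := quadraticChar (ZMod p)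

lemma ch_two (hp : p % 8 = 3) : ch p 2 = -1 := by
  have h2 : p ≠ 2 := by omega
  have h := quadraticChar_two (F := ZMod p) (by rw [ZMod.ringChar_zmod_n]; exact h2)
  rw [h, ZMod.card, ZMod.χ₈_nat_eq_if_mod_eight]
  simp [hp]
  omega

lemma ch_neg_one (hp : p % 8 = 3) : ch p (-1) = -1 := by
  have h2 : p ≠ 2 := by omega
  have h := quadraticChar_neg_one (F := ZMod p) (by rw [ZMod.ringChar_zmod_n]; exact h2)
  rw [h, ZMod.card, ZMod.χ₄_nat_three_mod_four (by omega)]

lemma ch_sq {a : ZMod p} (ha : a ≠ 0) : ch p a * ch p a = 1 := by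
  rw [← map_mul, ← sq]
  exact quadraticChar_sq_one' ha

/-- the function `f` -/
noncomputable def f (t : ZMod p) : ℤ := ch p ((t + 1) * (t + 2))

lemma f_inv (hp : p % 8 = 3) {t : ZMod p} (ht : t ≠ 0) : f p (2 * t⁻¹) = - f p t := by
  have h1 : (2 * t⁻¹ + 1) * (2 * t⁻¹ + 2) = 2 * ((t + 1) * (t + 2)) * (t⁻¹ * t⁻¹) := by
    field_simp
    ring
  rw [f, h1, map_mul, map_mul, map_mul _ t⁻¹, ch_sq p (inv_ne_zero ht), ch_two p hp, f]
  ring

lemma sum_f (hp : p % 8 = 3) : ∑ t, f p t = -1 := by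
  have h2 : p ≠ 2 := by omega
  have hF : ringChar (ZMod p) ≠ 2 := by rw [ZMod.ringChar_zmod_n]; exact h2
  have h0 : ∑ s, ch p s = 0 := quadraticChar_sum_zero hF
  -- substitution `s = 1 - 1/(t+2)`
  have h3 : ∀ t : ZMod p, f p t = if t = -2 then 0 else ch p (1 - (t + 2)⁻¹) := by
    intro t
    split_ifs with h
    · rw [f, h]
      simp
    · have h4 : t + 2 ≠ 0 := fun h5 => h (by linear_combination h5)
      have h5 : (t + 1) * (t + 2) = (1 - (t + 2)⁻¹) * ((t + 2) * (t + 2)) := by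
        field_simp
        ring
      rw [f, h5, map_mul, map_mul _ (t + 2), ch_sq p h4, mul_one]
  have h4 : ∑ t, (f p t + if t = -2 then (1 : ℤ) else 0) =
      ∑ t : ZMod p, ch p (1 - (t + 2)⁻¹) := by
    refine Finset.sum_congr rfl fun t _ => ?_
    rw [h3]
    split_ifs with h
    · rw [h]
      simp
    · simp
  rw [Finset.sum_add_distrib] at h4
  simp only [Finset.sum_ite_eq', Finset.mem_univ, if_true] at h4
  have h5 : ∑ t : ZMod p, ch p (1 - (t + 2)⁻¹) = 0 := by
    rw [← h0]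
    let e : ZMod p ≃ ZMod p := (Equiv.addRight (2 : ZMod p)).trans
      ((Equiv.inv (ZMod p)).trans (Equiv.subLeft 1))
    exact Equiv.sum_comp e (fun s => ch p s)
  linarith

lemma sum_cf (hp : p % 8 = 3) : ∑ t, ch p t * f p t = 0 := by
  have h1 : ∑ t : ZMod p, ch p (-2 - t) * f p (-2 - t) = ∑ t, ch p t * f p t :=
    Equiv.sum_comp (Equiv.subLeft (-2 : ZMod p)) (fun t => ch p t * f p t)
  have h2 : ∀ t : ZMod p, ch p (-2 - t) * f p (-2 - t) = - (ch p t * f p t) := by
    intro t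
    rw [f, f, ← map_mul, ← map_mul]
    have h3 : (-2 - t) * ((-2 - t + 1) * (-2 - t + 2)) = -1 * (t * ((t + 1) * (t + 2))) := by
      ring
    rw [h3, map_mul, ch_neg_one p hp]
    ring
  simp only [h2, Finset.sum_neg_distrib] at h1
  linarith

/-- the parametrisation of the squares -/
lemma exists_E (m : ℕ) [NeZero m] (h2m : p - 1 = 2 * m) :
    ∃ E : ZMod m → ZMod p, E 0 = 1 ∧ (∀ i j, E (i + j) = E i * E j) ∧
      (∀ i, E i ≠ 0) ∧ (∀ i, ch p (E i) = 1) ∧ Function.Injective E := by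
  have hm0 : 0 < m := Nat.pos_of_ne_zero (NeZero.ne m)
  obtain ⟨g, hg⟩ := IsCyclic.exists_generator (α := (ZMod p)ˣ)
  have hog : orderOf g = 2 * m := by
    rw [orderOf_eq_card_of_forall_mem_zpowers hg, Nat.card_eq_fintype_card,
      ZMod.card_units_eq_totient, Nat.totient_prime (Fact.out), h2m]
  have hou : orderOf (g ^ 2) = m := by
    rw [orderOf_pow_of_dvd (by norm_num) (by rw [hog]; exact Dvd.intro _ rfl), hog]
    simp
  refine ⟨fun i => (((g ^ 2) ^ i.val : (ZMod p)ˣ) : ZMod p), by simp, ?_, ?_, ?_, ?_⟩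
  · intro i j
    simp only
    rw [← Units.val_mul, ← pow_add, ZMod.val_add]
    congr 1
    conv_rhs => rw [← pow_mod_orderOf, hou]
  · intro i
    exact Units.ne_zero _
  · intro i
    simp only
    rw [← pow_mul, mul_comm, pow_mul, Units.val_pow_eq_pow_val]
    exact quadraticChar_sq_one' (Units.ne_zero _)
  · intro i j hij
    simp only at hij
    have h1 := Units.ext hij
    have h2 := pow_inj_mod.1 h1
    rw [hou, Nat.mod_eq_of_lt (ZMod.val_lt i), Nat.mod_eq_of_lt (ZMod.val_lt j)] at h2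
    exact ZMod.val_injective m h2

end prime

end Pool.Agent.V11299.JD
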